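import Pool.Agent.Q167.Spread.Main

/-!
# Pairs of positive algebraic connectivities below the quartic curve

For every `n ≥ 14` there is a balanced digraph `Γ` of order `n` such that `x = α(Γ)` and
`y = α(complement of Γ)` satisfy `0 < x < 1`, `0 < y < 1` and
`x y (2 - x y) < n (1 - x) (1 - y) (n - 2 - x - y)`.
-/

set_option autoImplicit false

namespace Pool.Agent.Results.MP_31cf8f_co.PositivePairsBelow

open Pool.Agent.Q167.Spread

/-- Of every order `n ≥ 14` there is a balanced digraph with `x, y` both strictly between `0` and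
`1`, and strictly below the quartic curve. -/
theorem result (n : ℕ) (hn : 14 ≤ n) : ∃ Γ : Dig n, Γ.Balanced ∧ ∃ x y : ℝ,
    Γ.IsAlgConn x ∧ Γ.compl.IsAlgConn y ∧ 0 < x ∧ x < 1 ∧ 0 < y ∧ y < 1 ∧
    x * y * (2 - x * y) < n * (1 - x) * (1 - y) * (n - 2 - x - y) :=
  main n hn

end Pool.Agent.Results.MP_31cf8f_co.PositivePairsBelow
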